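import Mathlib
import Pool.Agent.MP_077ac3_nt.H18.Defs

set_option autoImplicit false

/-! Hasse derivatives, the l1 norm and the weight filtration. -/

namespace Pool.Agent.MP_077ac3_nt.H15

open MvPolynomial Pool.Agent.MP_077ac3_nt.H18

/-- Product of binomial coefficients. -/
def bn {σ : Type} [Fintype σ] (J μ : σ →₀ ℕ) : ℕ := ∏ s, (J s).choose (μ s)

/-- Hasse derivative. -/
noncomputable def hd {σ R : Type} [Fintype σ] [CommRing R] (μ : σ →₀ ℕ)
    (P : MvPolynomial σ R) : MvPolynomial σ R :=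
  ∑ J ∈ P.support, monomial (J - μ) ((bn J μ : R) * P.coeff J)

section
variable {σ R : Type} [Fintype σ] [CommRing R]

theorem bn_eq_zero {J μ : σ →₀ ℕ} (h : ¬ μ ≤ J) : bn J μ = 0 := by
  rw [Finsupp.le_def] at h
  push Not at h
  obtain ⟨s, hs⟩ := h
  exact Finset.prod_eq_zero (Finset.mem_univ s) (Nat.choose_eq_zero_of_lt hs)

theorem coeff_hd (μ ν : σ →₀ ℕ) (P : MvPolynomial σ R) :
    (hd μ P).coeff ν = (bn (ν + μ) μ : R) * P.coeff (ν + μ) := by
  classical
  unfold hd
  rw [coeff_sum, Finset.sum_eq_single (ν + μ)]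
  · simp [coeff_monomial]
  · intro J _ hJ
    rw [coeff_monomial]
    split_ifs with h
    · by_cases hle : μ ≤ J
      · exact absurd (by rw [← h, tsub_add_cancel_of_le hle]) hJ
      · simp [bn_eq_zero hle]
    · rfl
  · intro h
    simp [notMem_support_iff.mp h]

theorem hd_zero (P : MvPolynomial σ R) : hd 0 P = P := by
  ext ν
  simp [coeff_hd, bn]

theorem hd_add (μ : σ →₀ ℕ) (P Q : MvPolynomial σ R) : hd μ (P + Q) = hd μ P + hd μ Q := by
  ext ν
  simp [coeff_hd, mul_add]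

theorem hd_smul (μ : σ →₀ ℕ) (c : R) (P : MvPolynomial σ R) : hd μ (c • P) = c • hd μ P := by
  ext ν
  simp [coeff_hd, mul_left_comm]

/-- The Hasse derivative as a linear map. -/
noncomputable def hdL (μ : σ →₀ ℕ) : MvPolynomial σ R →ₗ[R] MvPolynomial σ R where
  toFun := hd μ
  map_add' := hd_add μ
  map_smul' := hd_smul μ

theorem hd_sum {ι : Type} (μ : σ →₀ ℕ) (s : Finset ι) (f : ι → MvPolynomial σ R) :
    hd μ (∑ i ∈ s, f i) = ∑ i ∈ s, hd μ (f i) :=
  map_sum (hdL μ) f s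

theorem map_hd {S : Type} [CommRing S] (φ : R →+* S) (μ : σ →₀ ℕ) (P : MvPolynomial σ R) :
    map φ (hd μ P) = hd μ (map φ P) := by
  ext ν
  simp [coeff_hd, coeff_map]

theorem bn_step (ν μ : σ →₀ ℕ) (s : σ) :
    bn (ν + Finsupp.single s 1 + μ) μ * (ν s + 1) =
      (μ s + 1) * bn (ν + (μ + Finsupp.single s 1)) (μ + Finsupp.single s 1) := by
  classical
  unfold bn
  rw [← Finset.mul_prod_erase _ _ (Finset.mem_univ s),
    ← Finset.mul_prod_erase _ _ (Finset.mem_univ s)]
  have h1 : ∏ t ∈ Finset.univ.erase s, ((ν + Finsupp.single s 1 + μ : σ →₀ ℕ) t).choose (μ t) =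
      ∏ t ∈ Finset.univ.erase s, ((ν + (μ + Finsupp.single s 1) : σ →₀ ℕ) t).choose
        ((μ + Finsupp.single s 1 : σ →₀ ℕ) t) := by
    refine Finset.prod_congr rfl fun t ht => ?_
    have hts : t ≠ s := Finset.ne_of_mem_erase ht
    simp [Finsupp.single_eq_of_ne hts]
  rw [h1]
  simp only [Finsupp.add_apply, Finsupp.single_eq_same]
  have h2 := Nat.choose_succ_right_eq (ν s + 1 + μ s) (μ s)
  have h3 : ν s + 1 + μ s - μ s = ν s + 1 := by omega
  have h4 : ν s + (μ s + 1) = ν s + 1 + μ s := by omega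
  rw [h3] at h2
  rw [h4, mul_right_comm, ← h2]
  ring

theorem pderiv_hd (μ : σ →₀ ℕ) (s : σ) (P : MvPolynomial σ R) :
    pderiv s (hd μ P) = ((μ s : R) + 1) • hd (μ + Finsupp.single s 1) P := by
  ext ν
  rw [coeff_pderiv, coeff_smul, coeff_hd, coeff_hd]
  have h := congrArg (Nat.cast : ℕ → R) (bn_step ν μ s)
  push_cast at h
  have e : ν + Finsupp.single s 1 + μ = ν + (μ + Finsupp.single s 1) := by abel
  rw [e] at h ⊢
  rw [smul_eq_mul, ← mul_assoc, ← h]
  ring

theorem mem_support_hd {μ ν : σ →₀ ℕ} {P : MvPolynomial σ R} (h : ν ∈ (hd μ P).support) :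
    ν + μ ∈ P.support := by
  rw [mem_support_iff, coeff_hd] at h
  rw [mem_support_iff]
  exact fun h0 => h (by rw [h0, mul_zero])

theorem degreeOf_hd (μ : σ →₀ ℕ) (P : MvPolynomial σ R) (s : σ) :
    (hd μ P).degreeOf s ≤ P.degreeOf s := by
  rw [degreeOf_le_iff]
  intro ν hν
  have := monomial_le_degreeOf s (mem_support_hd hν)
  simp only [Finsupp.add_apply] at this
  omega

end

/-- Linear maps that intertwine the first derivatives intertwine the Hasse derivatives. -/
theorem hd_comm {α σ : Type} [Fintype α] [Fintype σ] (a : α → σ) (ha : Function.Injective a)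
    (Φ : MvPolynomial α ℚ →ₗ[ℚ] MvPolynomial σ ℚ)
    (hΦ : ∀ s Q, pderiv (a s) (Φ Q) = Φ (pderiv s Q)) (μ : α →₀ ℕ) (Q : MvPolynomial α ℚ) :
    hd (μ.mapDomain a) (Φ Q) = Φ (hd μ Q) := by
  classical
  induction hn : μ.degree generalizing μ with
  | zero =>
    rw [Finsupp.degree_eq_zero_iff] at hn
    subst hn
    simp [hd_zero]
  | succ n ih =>
    have hne : μ ≠ 0 := by rintro rfl; simp at hn
    obtain ⟨s, hs⟩ := Finsupp.support_nonempty_iff.mpr hne
    have hs1 : Finsupp.single s 1 ≤ μ := by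
      rw [Finsupp.single_le_iff]
      exact Nat.one_le_iff_ne_zero.mpr (Finsupp.mem_support_iff.mp hs)
    obtain ⟨μ', rfl⟩ : ∃ μ', μ = μ' + Finsupp.single s 1 :=
      ⟨μ - Finsupp.single s 1, (tsub_add_cancel_of_le hs1).symm⟩
    have hn' : μ'.degree = n := by
      rw [map_add, Finsupp.degree_single] at hn
      omega
    have h1 := congrArg (pderiv (a s)) (ih μ' hn')
    rw [hΦ, pderiv_hd, pderiv_hd, map_smul, Finsupp.mapDomain_apply ha] at h1
    rw [Finsupp.mapDomain_add, Finsupp.mapDomain_single]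
    have hc : ((μ' s : ℚ) + 1) ≠ 0 := by positivity
    exact smul_right_injective _ hc h1

theorem pderiv_shift {σ : Type} (y : σ → ℚ) (s : σ) (Q : MvPolynomial σ ℚ) :
    pderiv s (shift y Q) = shift y (pderiv s Q) := by
  classical
  induction Q using MvPolynomial.induction_on with
  | C a => simp [shift]
  | add p q hp hq => simp [hp, hq]
  | mul_X p t h =>
    simp only [map_mul, Derivation.leibniz, smul_eq_mul, map_add, h]
    by_cases hts : t = s
    · subst hts
      simp [shift]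
    · simp [shift, pderiv_X_of_ne hts]

theorem hd_shift {σ : Type} [Fintype σ] (y : σ → ℚ) (μ : σ →₀ ℕ) (Q : MvPolynomial σ ℚ) :
    hd μ (shift y Q) = shift y (hd μ Q) := by
  have := hd_comm (fun s : σ => s) (fun _ _ h => h) (shift y).toLinearMap
    (fun s Q => pderiv_shift y s Q) μ Q
  simpa [show (fun s : σ => s) = id from rfl, Finsupp.mapDomain_id] using this

theorem shift_rename {α σ : Type} (a : α → σ) (y : σ → ℚ) (Q : MvPolynomial α ℚ) :
    shift y (rename a Q) = rename a (shift (fun s => y (a s)) Q) := by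
  induction Q using MvPolynomial.induction_on with
  | C c => simp [shift]
  | add p q hp hq => simp [hp, hq]
  | mul_X p t h =>
    simp only [map_mul, h]
    simp [shift]

theorem shift_ne_zero {σ : Type} (y : σ → ℚ) {Q : MvPolynomial σ ℚ} (hQ : Q ≠ 0) :
    shift y Q ≠ 0 := by
  have key : ∀ Q : MvPolynomial σ ℚ, shift (fun s => - y s) (shift y Q) = Q := by
    intro Q
    induction Q using MvPolynomial.induction_on with
    | C c => simp [shift]
    | add p q hp hq => simp [hp, hq]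
    | mul_X p t h =>
      simp only [map_mul, h]
      simp [shift]
  intro h
  apply hQ
  rw [← key Q, h, map_zero]

/-! ### The l1 norm -/

section
variable {σ : Type}

theorem l1_nonneg (P : MvPolynomial σ ℤ) : 0 ≤ l1 P :=
  Finset.sum_nonneg fun _ _ => abs_nonneg _

theorem l1_eq_sum (P : MvPolynomial σ ℤ) (s : Finset (σ →₀ ℕ)) (h : P.support ⊆ s) :
    l1 P = ∑ J ∈ s, |((P.coeff J : ℤ) : ℝ)| := by
  unfold l1
  refine Finset.sum_subset h fun J _ hJ => ?_
  simp [notMem_support_iff.mp hJ]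

theorem sum_le_l1 {ι : Type} (P : MvPolynomial σ ℤ) (s : Finset ι) (j : ι → (σ →₀ ℕ))
    (hj : Function.Injective j) : ∑ i ∈ s, |((P.coeff (j i) : ℤ) : ℝ)| ≤ l1 P := by
  classical
  rw [l1_eq_sum P (P.support ∪ s.image j) Finset.subset_union_left,
    ← Finset.sum_image (f := fun J => |((P.coeff J : ℤ) : ℝ)|) (fun _ _ _ _ h => hj h)]
  exact Finset.sum_le_sum_of_subset_of_nonneg Finset.subset_union_right fun _ _ _ => abs_nonneg _

theorem abs_coeff_le_l1 (P : MvPolynomial σ ℤ) (J : σ →₀ ℕ) :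
    |((P.coeff J : ℤ) : ℝ)| ≤ l1 P := by
  have := sum_le_l1 P ({()} : Finset Unit) (fun _ => J) (fun _ _ _ => rfl)
  simpa using this

theorem one_le_l1 {P : MvPolynomial σ ℤ} (hP : P ≠ 0) : 1 ≤ l1 P := by
  obtain ⟨J, hJ⟩ := ne_zero_iff.mp hP
  refine le_trans ?_ (abs_coeff_le_l1 P J)
  have : (1 : ℤ) ≤ |P.coeff J| := Int.one_le_abs hJ
  exact_mod_cast this

theorem l1_add (P Q : MvPolynomial σ ℤ) : l1 (P + Q) ≤ l1 P + l1 Q := by
  classical
  rw [l1_eq_sum (P + Q) (P.support ∪ Q.support) support_add,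
    l1_eq_sum P (P.support ∪ Q.support) Finset.subset_union_left,
    l1_eq_sum Q (P.support ∪ Q.support) Finset.subset_union_right, ← Finset.sum_add_distrib]
  refine Finset.sum_le_sum fun J _ => ?_
  rw [coeff_add]
  push_cast
  exact abs_add_le _ _

theorem l1_zero : l1 (0 : MvPolynomial σ ℤ) = 0 := by simp [l1]

theorem l1_sum {ι : Type} (s : Finset ι) (f : ι → MvPolynomial σ ℤ) :
    l1 (∑ i ∈ s, f i) ≤ ∑ i ∈ s, l1 (f i) := by
  classical
  induction s using Finset.induction_on with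
  | empty => simp [l1_zero]
  | insert a s ha ih =>
    rw [Finset.sum_insert ha, Finset.sum_insert ha]
    exact (l1_add _ _).trans (by linarith)

theorem l1_monomial (J : σ →₀ ℕ) (c : ℤ) : l1 (monomial J c) = |(c : ℝ)| := by
  classical
  rw [l1_eq_sum _ {J} support_monomial_subset]
  simp

theorem l1_mul (P Q : MvPolynomial σ ℤ) : l1 (P * Q) ≤ l1 P * l1 Q := by
  conv_lhs => rw [P.as_sum, Q.as_sum, Finset.sum_mul_sum]
  refine (l1_sum _ _).trans ?_
  unfold l1
  rw [Finset.sum_mul_sum]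
  refine Finset.sum_le_sum fun I _ => (l1_sum _ _).trans (le_of_eq ?_)
  refine Finset.sum_congr rfl fun J _ => ?_
  rw [monomial_mul, l1_monomial]
  push_cast
  exact abs_mul _ _

theorem l1_one : l1 (1 : MvPolynomial σ ℤ) = 1 := by
  rw [← C_1, C_apply, l1_monomial]
  simp

theorem l1_prod {ι : Type} (s : Finset ι) (f : ι → MvPolynomial σ ℤ) (B : ℝ) (hB : 0 ≤ B)
    (h : ∀ i ∈ s, l1 (f i) ≤ B) : l1 (∏ i ∈ s, f i) ≤ B ^ s.card := by
  classical
  induction s using Finset.induction_on with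
  | empty => simp [l1_one]
  | insert a s ha ih =>
    rw [Finset.prod_insert ha, Finset.card_insert_of_notMem ha, pow_succ']
    refine (l1_mul _ _).trans (mul_le_mul (h a (Finset.mem_insert_self _ _))
      (ih fun i hi => h i (Finset.mem_insert_of_mem hi)) (l1_nonneg _) hB)

theorem l1_neg (P : MvPolynomial σ ℤ) : l1 (-P) = l1 P := by
  simp [l1]

theorem l1_det {n : ℕ} (A : Matrix (Fin n) (Fin n) (MvPolynomial σ ℤ)) (B : ℝ) (hB : 0 ≤ B)
    (h : ∀ i j, l1 (A i j) ≤ B) : l1 A.det ≤ (n.factorial : ℝ) * B ^ n := by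
  rw [Matrix.det_apply]
  refine (l1_sum _ _).trans ?_
  have : ∀ π ∈ (Finset.univ : Finset (Equiv.Perm (Fin n))),
      l1 (Equiv.Perm.sign π • ∏ i, A (π i) i) ≤ B ^ n := by
    intro π _
    have h1 := l1_prod Finset.univ (fun i => A (π i) i) B hB (fun i _ => h _ _)
    rw [Finset.card_univ, Fintype.card_fin] at h1
    rcases Int.units_eq_one_or (Equiv.Perm.sign π) with e | e <;> rw [e]
    · simpa using h1
    · simpa [l1_neg] using h1
  refine (Finset.sum_le_card_nsmul _ _ _ this).trans (le_of_eq ?_)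
  simp [Fintype.card_perm]

theorem l1_hd [Fintype σ] (μ : σ →₀ ℕ) (P : MvPolynomial σ ℤ) (d : σ → ℕ)
    (hd' : ∀ s, P.degreeOf s ≤ d s) : l1 (hd μ P) ≤ 2 ^ (∑ s, d s) * l1 P := by
  unfold hd
  refine (l1_sum _ _).trans ?_
  conv_rhs => unfold l1
  rw [Finset.mul_sum]
  refine Finset.sum_le_sum fun J hJ => ?_
  rw [l1_monomial]
  push_cast
  rw [abs_mul, Nat.abs_cast]
  refine mul_le_mul_of_nonneg_right ?_ (abs_nonneg _)
  have : bn J μ ≤ 2 ^ (∑ s, d s) := by
    unfold bn
    rw [← Finset.prod_pow_eq_pow_sum]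
    refine Finset.prod_le_prod' fun s _ => (Nat.choose_le_two_pow _ _).trans ?_
    exact Nat.pow_le_pow_right (by norm_num) ((monomial_le_degreeOf s hJ).trans (hd' s))
  exact_mod_cast this

theorem degreeOf_det {R : Type} [CommRing R] {n : ℕ}
    (A : Matrix (Fin n) (Fin n) (MvPolynomial σ R)) (s : σ) (d : ℕ)
    (h : ∀ i j, (A i j).degreeOf s ≤ d) : A.det.degreeOf s ≤ n * d := by
  classical
  rw [Matrix.det_apply]
  refine (degreeOf_sum_le _ _ _).trans (Finset.sup_le fun π _ => ?_)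
  have h1 : (∏ i, A (π i) i).degreeOf s ≤ n * d := by
    refine (degreeOf_prod_le _ _ _).trans ?_
    refine (Finset.sum_le_card_nsmul _ _ _ (fun i _ => h _ _)).trans (le_of_eq ?_)
    simp
  rcases Int.units_eq_one_or (Equiv.Perm.sign π) with e | e <;> rw [e]
  · simpa using h1
  · simpa [degreeOf_neg] using h1

end

/-! ### The weight filtration -/

section
variable {σ : Type}

theorem wt_add (w : σ → ℝ) (I J : σ →₀ ℕ) : wt w (I + J) = wt w I + wt w J := by
  unfold wt
  rw [Finsupp.sum_add_index']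
  · simp
  · intro s a b
    push_cast
    ring

theorem wt_eq_sum [Fintype σ] (w : σ → ℝ) (J : σ →₀ ℕ) : wt w J = ∑ s, (J s : ℝ) * w s := by
  unfold wt
  rw [Finsupp.sum_fintype]
  simp

theorem wt_nonneg {w : σ → ℝ} (hw : ∀ s, 0 ≤ w s) (J : σ →₀ ℕ) : 0 ≤ wt w J :=
  Finset.sum_nonneg fun s _ => mul_nonneg (Nat.cast_nonneg _) (hw s)

theorem wt_mapDomain {α : Type} (a : α → σ) (w : σ → ℝ) (J : α →₀ ℕ) :
    wt w (J.mapDomain a) = wt (fun s => w (a s)) J := by
  unfold wt
  rw [Finsupp.sum_mapDomain_index]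
  · simp
  · intro s a b
    push_cast
    ring

/-- All monomials have weight at least `t`. -/
def Fil (w : σ → ℝ) (t : ℝ) (Q : MvPolynomial σ ℚ) : Prop := ∀ J ∈ Q.support, t ≤ wt w J

theorem Fil.mul {w : σ → ℝ} {t u : ℝ} {P Q : MvPolynomial σ ℚ} (hP : Fil w t P)
    (hQ : Fil w u Q) : Fil w (t + u) (P * Q) := by
  classical
  intro J hJ
  obtain ⟨I, hI, K, hK, rfl⟩ := Finset.mem_add.mp (support_mul P Q hJ)
  rw [wt_add]
  exact add_le_add (hP I hI) (hQ K hK)

theorem fil_prod {ι : Type} {w : σ → ℝ} (s : Finset ι) (t : ι → ℝ) (f : ι → MvPolynomial σ ℚ)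
    (h : ∀ i ∈ s, Fil w (t i) (f i)) : Fil w (∑ i ∈ s, t i) (∏ i ∈ s, f i) := by
  classical
  induction s using Finset.induction_on with
  | empty =>
    intro J hJ
    have : J = 0 := by simpa using hJ
    simp [this, wt]
  | insert a s ha ih =>
    rw [Finset.prod_insert ha, Finset.sum_insert ha]
    exact (h a (Finset.mem_insert_self _ _)).mul (ih fun i hi => h i (Finset.mem_insert_of_mem hi))

theorem fil_det {n : ℕ} {w : σ → ℝ} (A : Matrix (Fin n) (Fin n) (MvPolynomial σ ℚ))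
    (t : Fin n → ℝ) (h : ∀ i j, Fil w (t j) (A i j)) : Fil w (∑ j, t j) A.det := by
  classical
  intro J hJ
  rw [Matrix.det_apply] at hJ
  obtain ⟨π, -, hπ⟩ := Finset.mem_biUnion.mp (support_sum hJ)
  have h1 := fil_prod Finset.univ t (fun j => A (π j) j) (fun j _ => h _ _)
  apply h1
  rcases Int.units_eq_one_or (Equiv.Perm.sign π) with e | e <;> rw [e] at hπ
  · simpa using hπ
  · simpa using hπ

theorem Fil.hd [Fintype σ] {w : σ → ℝ} {t : ℝ} {P : MvPolynomial σ ℚ} (hP : Fil w t P)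
    (μ : σ →₀ ℕ) : Fil w (t - wt w μ) (hd μ P) := by
  intro J hJ
  have := hP _ (mem_support_hd hJ)
  rw [wt_add] at this
  linarith

theorem Fil.max {w : σ → ℝ} (hw : ∀ s, 0 ≤ w s) {t u : ℝ} {P : MvPolynomial σ ℚ}
    (hP : Fil w t P) (hu : u ≤ t) : Fil w (max 0 u) P :=
  fun J hJ => max_le (wt_nonneg hw J) (hu.trans (hP J hJ))

end

end Pool.Agent.MP_077ac3_nt.H15
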