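import Mathlib
import Pool.Agent.MP_077ac3_nt.H15.Hasse

set_option autoImplicit false

/-! Generalized Wronskians. -/

namespace Pool.Agent.MP_077ac3_nt.H15

open MvPolynomial

variable {σ : Type} [Fintype σ]

omit [Fintype σ] in
/-- Elements of the span with pairwise distinct leading monomials. -/
theorem echelon (mo : MonomialOrder σ) {n : ℕ} (f : Fin n → MvPolynomial σ ℚ)
    (hf : LinearIndependent ℚ f) (k : ℕ) (hk : k ≤ n) :
    ∃ G : Fin k → Fin n → ℚ, (∀ i, ∑ j, G i j • f j ≠ 0) ∧
      Function.Injective fun i => mo.degree (∑ j, G i j • f j) := by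
  induction k with
  | zero => exact ⟨fun i => i.elim0, fun i => i.elim0, fun i => i.elim0⟩
  | succ k ih =>
    obtain ⟨G, hG, hinj⟩ := ih (by omega)
    let L : (Fin n → ℚ) →ₗ[ℚ] (Fin k → ℚ) :=
      LinearMap.pi fun i => (lcoeff ℚ (mo.degree (∑ j, G i j • f j))).comp
        (Fintype.linearCombination ℚ f)
    have hker : LinearMap.ker L ≠ ⊥ := LinearMap.ker_ne_bot_of_finrank_lt (by simp; omega)
    obtain ⟨c, hc, hc0⟩ := Submodule.exists_mem_ne_zero_of_ne_bot hker
    have hne : ∑ j, c j • f j ≠ 0 := fun h =>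
      hc0 (funext (Fintype.linearIndependent_iff.mp hf c h))
    refine ⟨Fin.cons c G, fun i => ?_, ?_⟩
    · refine Fin.cases ?_ (fun i => ?_) i
      · simpa using hne
      · simpa using hG i
    · have e : (fun i : Fin (k + 1) => mo.degree (∑ j, (Fin.cons c G : Fin (k + 1) → Fin n → ℚ) i j
          • f j)) = Fin.cons (mo.degree (∑ j, c j • f j))
            (fun i => mo.degree (∑ j, G i j • f j)) := by
        funext i
        refine Fin.cases ?_ (fun i => ?_) i <;> simp
      rw [e, Fin.cons_injective_iff]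
      refine ⟨?_, hinj⟩
      rintro ⟨i, hi⟩
      have h1 := congrFun (LinearMap.mem_ker.mp hc) i
      simp only [L, LinearMap.pi_apply, LinearMap.comp_apply, lcoeff_apply,
        Fintype.linearCombination_apply, Pi.zero_apply] at h1
      simp only at hi
      rw [hi] at h1
      exact mo.coeff_degree_ne_zero_iff.mpr hne h1

theorem bn_mul (J μ : σ →₀ ℕ) (s : σ) :
    J s * bn J μ = (μ s + 1) * bn J (μ + Finsupp.single s 1) + μ s * bn J μ := by
  classical
  unfold bn
  rw [← Finset.mul_prod_erase _ _ (Finset.mem_univ s),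
    ← Finset.mul_prod_erase _ _ (Finset.mem_univ s)]
  have h1 : ∏ t ∈ Finset.univ.erase s, (J t).choose ((μ + Finsupp.single s 1 : σ →₀ ℕ) t) =
      ∏ t ∈ Finset.univ.erase s, (J t).choose (μ t) := by
    refine Finset.prod_congr rfl fun t ht => ?_
    have hts : t ≠ s := Finset.ne_of_mem_erase ht
    simp [Finsupp.single_eq_of_ne hts]
  rw [h1]
  simp only [Finsupp.add_apply, Finsupp.single_eq_same]
  have h2 : J s * (J s).choose (μ s) =
      (μ s + 1) * (J s).choose (μ s + 1) + μ s * (J s).choose (μ s) := by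
    rcases le_or_gt (μ s) (J s) with h | h
    · obtain ⟨r, hr⟩ := Nat.exists_eq_add_of_le h
      have h3 := Nat.choose_succ_right_eq (J s) (μ s)
      have h4 : J s - μ s = r := by omega
      rw [h4] at h3
      rw [mul_comm (μ s + 1), h3]
      nth_rewrite 1 [hr]
      ring
    · rw [Nat.choose_eq_zero_of_lt h, Nat.choose_eq_zero_of_lt (by omega)]
      simp
  rw [← mul_assoc, h2]
  ring

/-- Binomial polynomials of degree `< n` separate `n` distinct points. -/
theorem interp {n : ℕ} (a : Fin n → σ →₀ ℕ) (ha : Function.Injective a) :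
    ∃ μ : Fin n → σ →₀ ℕ, (∀ i, (μ i).degree < n) ∧
      (Matrix.of fun i j => (bn (a j) (μ i) : ℚ)).det ≠ 0 := by
  classical
  let φ : (σ →₀ ℕ) → Fin n → ℚ := fun μ j => (bn (a j) μ : ℚ)
  let S : ℕ → Submodule ℚ (Fin n → ℚ) := fun t => Submodule.span ℚ (φ '' {μ | μ.degree < t})
  have mono : ∀ t v, v ∈ S t → v ∈ S (t + 1) := by
    intro t v hv
    refine Submodule.span_mono ?_ hv
    rintro _ ⟨μ, hμ, rfl⟩
    exact ⟨μ, Nat.lt_succ_of_lt hμ, rfl⟩
  have mul : ∀ t s v, v ∈ S t → (fun j => (a j s : ℚ) * v j) ∈ S (t + 1) := by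
    intro t s v hv
    induction hv using Submodule.span_induction with
    | mem v hv =>
      obtain ⟨μ, hμ, rfl⟩ := hv
      have e : (fun j => (a j s : ℚ) * φ μ j) =
          ((μ s : ℚ) + 1) • φ (μ + Finsupp.single s 1) + (μ s : ℚ) • φ μ := by
        funext j
        have := congrArg (Nat.cast : ℕ → ℚ) (bn_mul (a j) μ s)
        push_cast at this
        simpa [φ] using this
      rw [e]
      refine Submodule.add_mem _ (Submodule.smul_mem _ _ (Submodule.subset_span ⟨_, ?_, rfl⟩))
        (Submodule.smul_mem _ _ (Submodule.subset_span ⟨_, Nat.lt_succ_of_lt hμ, rfl⟩))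
      have : μ.degree < t := hμ
      simp only [Set.mem_ofPred_eq, map_add, Finsupp.degree_single]
      omega
    | zero =>
      have e : (fun j => (a j s : ℚ) * (0 : Fin n → ℚ) j) = 0 := by
        funext j
        simp
      rw [e]
      exact (S (t + 1)).zero_mem
    | add u v _ _ hu hv =>
      have := (S (t + 1)).add_mem hu hv
      convert this using 1
      funext j
      simp [mul_add]
    | smul c v _ hv =>
      have := (S (t + 1)).smul_mem c hv
      convert this using 1
      funext j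
      simp [mul_left_comm]
  have prd : ∀ (j0 : Fin n) (T : Finset (Fin n)), j0 ∉ T →
      ∃ v ∈ S (T.card + 1), v j0 ≠ 0 ∧ ∀ j ∈ T, v j = 0 := by
    intro j0 T
    induction T using Finset.induction_on with
    | empty =>
      intro _
      exact ⟨φ 0, Submodule.subset_span ⟨0, by simp, rfl⟩, by simp [φ, bn], by simp⟩
    | insert j1 T hj ih =>
      intro h0
      rw [Finset.mem_insert, not_or] at h0
      obtain ⟨v, hv, hv0, hvT⟩ := ih h0.2
      have hne : a j0 ≠ a j1 := fun e => h0.1 (ha e)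
      obtain ⟨s, hs⟩ := DFunLike.ne_iff.mp hne
      rw [Finset.card_insert_of_notMem hj]
      refine ⟨_, (S _).sub_mem (mul _ s _ hv) ((S _).smul_mem (a j1 s : ℚ) (mono _ _ hv)), ?_, ?_⟩
      · simp only [Pi.sub_apply, Pi.smul_apply, smul_eq_mul, ← sub_mul]
        exact mul_ne_zero (sub_ne_zero.mpr (by exact_mod_cast hs)) hv0
      · intro j hj'
        simp only [Pi.sub_apply, Pi.smul_apply, smul_eq_mul, ← sub_mul]
        rcases Finset.mem_insert.mp hj' with rfl | h
        · simp
        · simp [hvT j h]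
  have top : S n = ⊤ := by
    rw [eq_top_iff, ← (Pi.basisFun ℚ (Fin n)).span_eq, Submodule.span_le]
    rintro _ ⟨j0, rfl⟩
    obtain ⟨v, hv, hv0, hvT⟩ := prd j0 (Finset.univ.erase j0) (by simp)
    have hc : (Finset.univ.erase j0).card + 1 = n := by
      rw [Finset.card_erase_add_one (Finset.mem_univ _)]
      simp
    rw [hc] at hv
    have e : Pi.basisFun ℚ (Fin n) j0 = (v j0)⁻¹ • v := by
      funext j
      by_cases h : j = j0
      · subst h
        simp [hv0]
      · simp [h, hvT j (by simp [h])]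
    rw [e]
    exact (S n).smul_mem (v j0)⁻¹ hv
  obtain ⟨g, hg, -, hli⟩ := Submodule.exists_fun_fin_finrank_span_eq ℚ (φ '' {μ | μ.degree < n})
  have hr : n = Module.finrank ℚ (Submodule.span ℚ (φ '' {μ | μ.degree < n})) := by
    change n = Module.finrank ℚ (S n)
    rw [top]
    simp
  choose μ hμ hμ' using hg
  refine ⟨fun i => μ (Fin.cast hr i), fun i => hμ _, ?_⟩
  have h1 : LinearIndependent ℚ (Matrix.of fun i j => (bn (a j) (μ (Fin.cast hr i)) : ℚ)).row := by
    have e : (Matrix.of fun i j => (bn (a j) (μ (Fin.cast hr i)) : ℚ)).row = g ∘ Fin.cast hr := by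
      funext i
      exact hμ' _
    rw [e]
    exact hli.comp (Fin.cast hr) (Fin.cast_injective hr)
  rw [Matrix.linearIndependent_rows_iff_isUnit, Matrix.isUnit_iff_isUnit_det] at h1
  exact h1.ne_zero

omit [Fintype σ] in
theorem coeff_prod_le (mo : MonomialOrder σ) {ι : Type} (s : Finset ι)
    (P : ι → MvPolynomial σ ℚ) (a : ι → σ →₀ ℕ)
    (h : ∀ i ∈ s, mo.toSyn (mo.degree (P i)) ≤ mo.toSyn (a i)) :
    coeff (∑ i ∈ s, a i) (∏ i ∈ s, P i) = ∏ i ∈ s, coeff (a i) (P i) := by
  classical
  induction s using Finset.induction_on with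
  | empty => simp
  | insert j s hj ih =>
    have h' : ∀ i ∈ s, mo.toSyn (mo.degree (P i)) ≤ mo.toSyn (a i) :=
      fun i hi => h i (Finset.mem_insert_of_mem hi)
    rw [Finset.prod_insert hj, Finset.sum_insert hj, Finset.prod_insert hj,
      mo.coeff_mul_of_add_of_degree_le (h j (Finset.mem_insert_self _ _)), ih h']
    refine mo.degree_prod_le.trans ?_
    rw [map_sum, map_sum]
    exact Finset.sum_le_sum h'

/-- Linearly independent polynomials have a nonzero generalized Wronskian. -/
theorem wronski (mo : MonomialOrder σ) {n : ℕ} (f : Fin n → MvPolynomial σ ℚ)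
    (hf : LinearIndependent ℚ f) :
    ∃ μ : Fin n → σ →₀ ℕ, (∀ i, (μ i).degree < n) ∧
      (Matrix.of fun i j => hd (μ i) (f j)).det ≠ 0 := by
  classical
  obtain ⟨G, hG, hinj⟩ := echelon mo f hf n le_rfl
  set e : Fin n → MvPolynomial σ ℚ := fun i => ∑ j, G i j • f j with he
  obtain ⟨μ, hμ, hdet⟩ := interp _ hinj
  refine ⟨μ, hμ, fun h0 => ?_⟩
  have h1 : (Matrix.of fun i j => monomial (μ i) 1 * hd (μ i) (e j)) =
      Matrix.diagonal (fun i => monomial (μ i) (1 : ℚ)) *
        ((Matrix.of fun i j => hd (μ i) (f j)) * Matrix.of fun l j => C (G j l)) := by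
    ext1 i j
    rw [Matrix.diagonal_mul, Matrix.mul_apply]
    simp only [Matrix.of_apply, he, hd_sum, hd_smul]
    congr 1
    refine Finset.sum_congr rfl fun l _ => ?_
    rw [smul_eq_C_mul, mul_comm]
  have h2 : (Matrix.of fun i j => monomial (μ i) 1 * hd (μ i) (e j)).det = 0 := by
    rw [h1, Matrix.det_mul, Matrix.det_mul, h0]
    simp
  have h3 : ∀ i j J, coeff J (monomial (μ i) 1 * hd (μ i) (e j)) =
      (bn J (μ i) : ℚ) * coeff J (e j) := by
    intro i j J
    rw [coeff_monomial_mul']
    split_ifs with hle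
    · rw [coeff_hd, tsub_add_cancel_of_le hle, one_mul]
    · simp [bn_eq_zero hle]
  have h4 := congrArg (coeff (∑ j, mo.degree (e j))) h2
  rw [Matrix.det_apply, coeff_sum, coeff_zero] at h4
  have h5 : ∀ π : Equiv.Perm (Fin n), coeff (∑ j, mo.degree (e j))
      (Equiv.Perm.sign π • ∏ j, (Matrix.of fun i j => monomial (μ i) 1 * hd (μ i) (e j)) (π j) j)
      = (Equiv.Perm.sign π • ∏ j, (Matrix.of fun i j => (bn (mo.degree (e j)) (μ i) : ℚ)) (π j) j)
        * ∏ j, coeff (mo.degree (e j)) (e j) := by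
    intro π
    rw [coeff_smul, coeff_prod_le mo, smul_mul_assoc, ← Finset.prod_mul_distrib]
    · simp only [Matrix.of_apply, h3]
    · intro j _
      refine mo.degree_le_iff.mpr fun J hJ => mo.le_degree ?_
      rw [mem_support_iff] at hJ ⊢
      simp only [Matrix.of_apply, h3] at hJ
      exact right_ne_zero_of_mul hJ
  rw [Finset.sum_congr rfl fun π _ => h5 π, ← Finset.sum_mul, ← Matrix.det_apply] at h4
  rcases mul_eq_zero.mp h4 with h | h
  · exact hdet h
  · obtain ⟨j, -, hj⟩ := Finset.prod_eq_zero_iff.mp h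
    exact mo.coeff_degree_ne_zero_iff.mpr (hG j) hj

end Pool.Agent.MP_077ac3_nt.H15
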