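import Mathlib
import Pool.Agent.MP_077ac3_nt.H15.Wronski

set_option autoImplicit false

/-! Separation of the first variable and the one variable case. -/

namespace Pool.Agent.MP_077ac3_nt.H15

open MvPolynomial Pool.Agent.MP_077ac3_nt.H18

theorem one_var (P : MvPolynomial (Fin 1) ℤ) (hP : P ≠ 0) (ξ : Fin 1 → ℚ) :
    ∃ J : Fin 1 →₀ ℕ, ((ξ 0).den : ℝ) ^ (J 0) ≤ l1 P ∧
      coeff J (shift ξ (map (Int.castRingHom ℚ) P)) ≠ 0 := by
  set p : Polynomial ℤ := uniqueAlgEquiv ℤ (Fin 1) P with hp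
  have hp0 : p ≠ 0 := by
    rw [hp]
    exact (map_ne_zero_iff _ (uniqueAlgEquiv ℤ (Fin 1)).injective).mpr hP
  set q : Polynomial ℚ := p.map (Int.castRingHom ℚ) with hq
  have hq0 : q ≠ 0 := by
    rw [hq]
    exact (Polynomial.map_ne_zero_iff (Int.cast_injective (α := ℚ))).mpr hp0
  have e1 : uniqueAlgEquiv ℚ (Fin 1) (map (Int.castRingHom ℚ) P) = q := by
    ext k
    rw [hq, hp, Polynomial.coeff_map, coeff_uniqueAlgEquiv, coeff_uniqueAlgEquiv, coeff_map]
  have e2 : ∀ Q : MvPolynomial (Fin 1) ℚ, uniqueAlgEquiv ℚ (Fin 1) (shift ξ Q) =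
      (uniqueAlgEquiv ℚ (Fin 1) Q).comp (Polynomial.X + Polynomial.C (ξ 0)) := by
    intro Q
    induction Q using MvPolynomial.induction_on with
    | C c => simp [shift]
    | add p q hp hq => rw [map_add, map_add, map_add, hp, hq, Polynomial.add_comp]
    | mul_X p t h =>
      rw [map_mul, map_mul, map_mul, h, Polynomial.mul_comp]
      congr 1
      rw [Subsingleton.elim t 0]
      simp [shift, add_comm]
  set k := q.rootMultiplicity (ξ 0) with hk
  refine ⟨Finsupp.single 0 k, ?_, ?_⟩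
  · rw [Finsupp.single_eq_same]
    set l : Polynomial ℤ := Polynomial.C ((ξ 0).den : ℤ) * Polynomial.X - Polynomial.C (ξ 0).num
      with hl
    have hden : (((ξ 0).den : ℤ)) ≠ 0 := by exact_mod_cast (ξ 0).den_ne_zero
    have hprim : l.IsPrimitive := by
      intro r hr
      have h1 := (Polynomial.C_dvd_iff_dvd_coeff r l).mp hr 1
      have h0 := (Polynomial.C_dvd_iff_dvd_coeff r l).mp hr 0
      simp only [hl, Polynomial.coeff_sub, Polynomial.coeff_C_mul, Polynomial.coeff_X_one,
        mul_one, Polynomial.coeff_C_succ, sub_zero, Polynomial.coeff_X_zero, mul_zero,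
        Polynomial.coeff_C_zero, zero_sub, dvd_neg] at h1 h0
      exact (Rat.isCoprime_num_den (ξ 0)).isUnit_of_dvd' h0 h1
    have hprimk : ∀ j : ℕ, (l ^ j).IsPrimitive := by
      intro j
      induction j with
      | zero => simp
      | succ j ih => rw [pow_succ]; exact ih.mul hprim
    have hmap : l.map (Int.castRingHom ℚ) =
        Polynomial.C ((ξ 0).den : ℚ) * (Polynomial.X - Polynomial.C (ξ 0)) := by
      rw [mul_sub, ← Polynomial.C_mul, Rat.den_mul_eq_num]
      simp [hl]
    have hdvd : l ^ k ∣ p := by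
      rw [Polynomial.IsPrimitive.Int.dvd_iff_map_cast_dvd_map_cast _ _ (hprimk k),
        Polynomial.map_pow, hmap, mul_pow]
      refine (IsUnit.mul_left_dvd ?_).mpr (Polynomial.pow_rootMultiplicity_dvd q (ξ 0))
      refine IsUnit.pow _ (Polynomial.isUnit_C.mpr (IsUnit.mk0 _ ?_))
      exact_mod_cast (ξ 0).den_ne_zero
    have hlc : l.leadingCoeff = ((ξ 0).den : ℤ) := by
      rw [hl, sub_eq_add_neg, ← Polynomial.C_neg]
      exact Polynomial.leadingCoeff_linear hden
    have h1 := Polynomial.leadingCoeff_dvd_leadingCoeff hdvd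
    rw [Polynomial.leadingCoeff_pow, hlc] at h1
    have h2 := Int.le_of_dvd (abs_pos.mpr (Polynomial.leadingCoeff_ne_zero.mpr hp0))
      ((dvd_abs _ _).mpr h1)
    have h3 := abs_coeff_le_l1 P (Finsupp.single default p.natDegree)
    rw [← coeff_uniqueAlgEquiv, ← hp] at h3
    refine le_trans ?_ h3
    exact_mod_cast h2
  · have h1 := coeff_uniqueAlgEquiv ℚ (shift ξ (map (Int.castRingHom ℚ) P)) k
    rw [show (default : Fin 1) = 0 from rfl] at h1
    rw [← h1, e2, e1, hk, Polynomial.rootMultiplicity_eq_natTrailingDegree]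
    refine Polynomial.trailingCoeff_nonzero_iff_nonzero.mpr ?_
    rw [← Polynomial.taylor_apply]
    exact fun h => hq0 (Polynomial.taylor_injective (ξ 0) (by rw [h, map_zero]))

theorem shorten {M N L : Type} [AddCommGroup M] [AddCommGroup N] [AddCommGroup L] [Module ℚ M]
    [Module ℚ N] [Module ℚ L] (T : M →ₗ[ℚ] N →ₗ[ℚ] L) {n : ℕ} (g : Fin n → M) (f : Fin n → N)
    (hf : ¬ LinearIndependent ℚ f) :
    ∃ k < n, ∃ (g' : Fin k → M) (f' : Fin k → N), ∑ j, T (g j) (f j) = ∑ j, T (g' j) (f' j) := by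
  obtain ⟨c, hc, i, hi⟩ := Fintype.not_linearIndependent_iff.mp hf
  obtain ⟨k, rfl⟩ : ∃ k, n = k + 1 := ⟨n - 1, by have := i.pos; omega⟩
  refine ⟨k, by omega, fun j => g (i.succAbove j) - (c (i.succAbove j) / c i) • g i,
    fun j => f (i.succAbove j), ?_⟩
  rw [Fin.sum_univ_succAbove _ i] at hc ⊢
  have h1 : f i = - ∑ j, (c (i.succAbove j) / c i) • f (i.succAbove j) := by
    have h2 : c i • f i = - ∑ j, c (i.succAbove j) • f (i.succAbove j) :=
      eq_neg_of_add_eq_zero_left hc
    calc f i = (c i)⁻¹ • c i • f i := by rw [smul_smul, inv_mul_cancel₀ hi, one_smul]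
      _ = _ := by
        rw [h2, smul_neg, Finset.smul_sum]
        congr 1
        refine Finset.sum_congr rfl fun j _ => ?_
        rw [smul_smul, div_eq_inv_mul]
  rw [h1]
  simp only [map_neg, map_sum, map_smul, map_sub, LinearMap.sub_apply, LinearMap.smul_apply,
    Finset.sum_sub_distrib]
  abel

theorem min_decomp {M N L : Type} [AddCommGroup M] [AddCommGroup N] [AddCommGroup L]
    [Module ℚ M] [Module ℚ N] [Module ℚ L] (T : M →ₗ[ℚ] N →ₗ[ℚ] L) (n : ℕ) :
    ∀ (g : Fin n → M) (f : Fin n → N), ∃ k ≤ n, ∃ (g' : Fin k → M) (f' : Fin k → N),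
      ∑ j, T (g j) (f j) = ∑ j, T (g' j) (f' j) ∧ LinearIndependent ℚ g' ∧
        LinearIndependent ℚ f' := by
  induction n using Nat.strong_induction_on with
  | _ n ih =>
    intro g f
    by_cases hf : LinearIndependent ℚ f
    · by_cases hg : LinearIndependent ℚ g
      · exact ⟨n, le_rfl, g, f, rfl, hg, hf⟩
      · obtain ⟨k, hk, f', g', e⟩ := shorten T.flip f g hg
        obtain ⟨k', hk', g'', f'', e', h⟩ := ih k hk g' f'
        exact ⟨k', by omega, g'', f'', by simpa [← e'] using e, h⟩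
    · obtain ⟨k, hk, g', f', e⟩ := shorten T g f hf
      obtain ⟨k', hk', g'', f'', e', h⟩ := ih k hk g' f'
      exact ⟨k', by omega, g'', f'', e.trans e', h⟩

variable {m : ℕ}

/-- The inclusion of the first variable. -/
def i0 (m : ℕ) : Fin 1 → Fin (m + 1) := fun _ => 0

theorem i0_inj : Function.Injective (i0 m) := fun a b _ => Subsingleton.elim a b

/-- The product of a polynomial in the first variable and one in the others. -/
noncomputable def tn (m : ℕ) : MvPolynomial (Fin 1) ℚ →ₗ[ℚ] MvPolynomial (Fin m) ℚ →ₗ[ℚ]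
    MvPolynomial (Fin (m + 1)) ℚ :=
  (LinearMap.mul ℚ _).compl₁₂ (rename (i0 m)).toLinearMap (rename Fin.succ).toLinearMap

theorem tn_apply (g : MvPolynomial (Fin 1) ℚ) (f : MvPolynomial (Fin m) ℚ) :
    tn m g f = rename (i0 m) g * rename Fin.succ f := rfl

/-- Exponent vector with prescribed first entry and tail. -/
noncomputable def jn (κ : Fin 1 →₀ ℕ) (ν : Fin m →₀ ℕ) : Fin (m + 1) →₀ ℕ :=
  κ.mapDomain (i0 m) + ν.mapDomain Fin.succ

theorem jn_zero (κ : Fin 1 →₀ ℕ) (ν : Fin m →₀ ℕ) : jn κ ν 0 = κ 0 := by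
  unfold jn
  rw [Finsupp.add_apply, Finsupp.mapDomain_of_notMem_range ν _ (by simp), add_zero]
  exact Finsupp.mapDomain_apply i0_inj κ 0

theorem jn_succ (κ : Fin 1 →₀ ℕ) (ν : Fin m →₀ ℕ) (t : Fin m) : jn κ ν t.succ = ν t := by
  unfold jn
  rw [Finsupp.add_apply, Finsupp.mapDomain_of_notMem_range κ _
    (by simp [i0, (Fin.succ_ne_zero t).symm]),
    zero_add]
  exact Finsupp.mapDomain_apply (Fin.succ_injective m) ν t

theorem jn_inj {κ κ' : Fin 1 →₀ ℕ} {ν ν' : Fin m →₀ ℕ} (h : jn κ ν = jn κ' ν') :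
    κ = κ' ∧ ν = ν' := by
  constructor
  · ext
    have := congrArg (fun J => J 0) h
    simpa [jn_zero] using this
  · ext t
    have := congrArg (fun J => J t.succ) h
    simpa [jn_succ] using this

theorem coeff_tn (g : MvPolynomial (Fin 1) ℚ) (f : MvPolynomial (Fin m) ℚ) (κ : Fin 1 →₀ ℕ)
    (ν : Fin m →₀ ℕ) : coeff (jn κ ν) (tn m g f) = coeff κ g * coeff ν f := by
  classical
  induction g using MvPolynomial.induction_on' with
  | add p q hp hq => simp [hp, hq, add_mul]
  | monomial κ' c =>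
    induction f using MvPolynomial.induction_on' with
    | add p q hp hq => simp [hp, hq, mul_add]
    | monomial ν' c' =>
      rw [tn_apply, rename_monomial, rename_monomial, monomial_mul, coeff_monomial,
        coeff_monomial, coeff_monomial]
      change (if jn κ' ν' = jn κ ν then _ else _) = _
      by_cases h : jn κ' ν' = jn κ ν
      · obtain ⟨rfl, rfl⟩ := jn_inj h
        simp
      · rw [if_neg h]
        by_cases h1 : κ' = κ
        · by_cases h2 : ν' = ν
          · exact absurd (by rw [h1, h2]) h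
          · simp [h2]
        · simp [h1]

theorem decomp (P : MvPolynomial (Fin (m + 1)) ℚ) (d : ℕ) (hd' : P.degreeOf 0 ≤ d) :
    P = ∑ k : Fin (d + 1), tn m (monomial (Finsupp.single 0 k) 1)
      ((finSuccEquiv ℚ m P).coeff k) := by
  classical
  ext J
  have hJ : J = jn (Finsupp.single 0 (J 0)) J.tail := by
    ext t
    refine Fin.cases ?_ (fun t => ?_) t
    · simp [jn_zero]
    · simp [jn_succ, Finsupp.tail_apply]
  rw [coeff_sum]
  conv_rhs => rw [hJ]
  simp only [coeff_tn, finSuccEquiv_coeff_coeff, coeff_monomial]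
  by_cases h : J 0 ≤ d
  · rw [Finset.sum_eq_single (⟨J 0, by omega⟩ : Fin (d + 1))]
    · simp
    · intro k _ hk
      rw [if_neg, zero_mul]
      intro e
      exact hk (Fin.ext (Finsupp.single_injective _ e))
    · simp
  · rw [Finset.sum_eq_zero]
    · by_contra hne
      exact h ((monomial_le_degreeOf 0 (mem_support_iff.mpr hne)).trans hd')
    · intro k _
      rw [if_neg, zero_mul]
      intro e
      have := Finsupp.single_injective _ e
      omega

theorem pderiv_rename_zero {α σ : Type} (a : α → σ) (t : σ) (ht : ∀ s, a s ≠ t)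
    (g : MvPolynomial α ℚ) : pderiv t (rename a g) = 0 := by
  induction g using MvPolynomial.induction_on with
  | C c => simp
  | add p q hp hq => simp [hp, hq]
  | mul_X p s h => simp [h, pderiv_X_of_ne (ht s)]

theorem hd_tn (g : MvPolynomial (Fin 1) ℚ) (f : MvPolynomial (Fin m) ℚ) (κ : Fin 1 →₀ ℕ)
    (μ : Fin m →₀ ℕ) :
    hd (κ.mapDomain (i0 m)) (hd (μ.mapDomain Fin.succ) (tn m g f)) = tn m (hd κ g) (hd μ f) := by
  rw [hd_comm Fin.succ (Fin.succ_injective m) (tn m g)]
  · refine hd_comm (i0 m) i0_inj ((tn m).flip (hd μ f)) ?_ κ g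
    intro s Q
    simp only [LinearMap.flip_apply, tn_apply]
    rw [pderiv_mul, pderiv_rename i0_inj, pderiv_rename_zero Fin.succ (i0 m s)
      (fun t => Fin.succ_ne_zero t), mul_zero, add_zero]
  · intro s Q
    simp only [tn_apply]
    rw [pderiv_mul, pderiv_rename (Fin.succ_injective m), pderiv_rename_zero (i0 m) s.succ
      (fun _ => (Fin.succ_ne_zero s).symm), zero_mul, zero_add]

theorem shift_tn (ξ : Fin (m + 1) → ℚ) (g : MvPolynomial (Fin 1) ℚ) (f : MvPolynomial (Fin m) ℚ) :
    shift ξ (tn m g f) = tn m (shift (fun _ => ξ 0) g) (shift (fun t => ξ t.succ) f) := by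
  rw [tn_apply, tn_apply, map_mul, shift_rename, shift_rename]
  rfl

/-- A slice of an integer polynomial. -/
theorem slice {α σ : Type} (V : MvPolynomial σ ℤ) (j : (α →₀ ℕ) → (σ →₀ ℕ))
    (hj : Function.Injective j) (U : MvPolynomial α ℚ) (c : ℚ)
    (h : ∀ ν, ((V.coeff (j ν) : ℤ) : ℚ) = c * U.coeff ν) :
    ∃ U' : MvPolynomial α ℤ, map (Int.castRingHom ℚ) U' = c • U ∧ l1 U' ≤ l1 V ∧
      ∀ ν ∈ U'.support, j ν ∈ V.support := by
  classical
  have hc : ∀ ν, (∑ ν' ∈ U.support, monomial ν' (V.coeff (j ν'))).coeff ν = V.coeff (j ν) := by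
    intro ν
    rw [coeff_sum]
    simp only [coeff_monomial]
    rw [Finset.sum_ite_eq']
    split_ifs with hν
    · rfl
    · have := h ν
      rw [notMem_support_iff.mp hν, mul_zero] at this
      exact_mod_cast this.symm
  refine ⟨∑ ν' ∈ U.support, monomial ν' (V.coeff (j ν')), ?_, ?_, ?_⟩
  · ext ν
    rw [coeff_map, hc, coeff_smul, smul_eq_mul, ← h]
    rfl
  · refine le_trans (le_of_eq ?_) (sum_le_l1 V
      (∑ ν' ∈ U.support, monomial ν' (V.coeff (j ν'))).support j hj)
    unfold l1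
    exact Finset.sum_congr rfl fun ν _ => by rw [hc]
  · intro ν hν
    rwa [mem_support_iff, hc, ← mem_support_iff] at hν

end Pool.Agent.MP_077ac3_nt.H15
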