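import Mathlib
import Pool.Agent.MP_077ac3_nt.H15.Tensor

set_option autoImplicit false

/-! Roth's lemma. -/

namespace Pool.Agent.MP_077ac3_nt.H15

open MvPolynomial Pool.Agent.MP_077ac3_nt.H18

theorem sum_bound (n : ℕ) (d θ σ : ℝ) (hθ : 0 < θ) (hθ1 : θ ≤ 1) (hσ : σ ≤ θ / 4) (hd : 1 ≤ d)
    (hn : (n : ℝ) ≤ d + 1) (κ : Fin n → ℕ) (hκ : Function.Injective κ) (hlt : ∀ k, κ k < n) :
    n * θ ^ 2 / 16 ≤ ∑ k, max 0 (θ - σ - κ k / d) := by
  let p : Fin n → Fin n := fun k => ⟨κ k, hlt k⟩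
  have hp : Function.Bijective p :=
    Finite.injective_iff_bijective.mp fun a b h => hκ (congrArg Fin.val h)
  have e : ∑ k, max 0 (θ - σ - κ k / d) = ∑ k ∈ Finset.range n, max 0 (θ - σ - (k : ℝ) / d) := by
    rw [← Fin.sum_univ_eq_sum_range (fun k => max 0 (θ - σ - (k : ℝ) / d)) n]
    exact hp.sum_comp (fun k : Fin n => max 0 (θ - σ - ((k : ℕ) : ℝ) / d))
  rw [e]
  set N := ⌈n * θ / 8⌉₊ with hN
  have hn0 : (0 : ℝ) ≤ n := Nat.cast_nonneg n
  have hNn : N ≤ n := Nat.ceil_le.mpr (by nlinarith)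
  have h1 : (n : ℝ) * θ / 8 ≤ N := Nat.le_ceil _
  have h2 : ∀ k ∈ Finset.range N, θ / 2 ≤ max 0 (θ - σ - (k : ℝ) / d) := by
    intro k hk
    have h3 : (k : ℝ) < n * θ / 8 := Nat.lt_ceil.mp (Finset.mem_range.mp hk)
    have h4 : (k : ℝ) / d ≤ θ / 4 := by
      rw [div_le_iff₀ (by linarith)]
      nlinarith
    exact le_max_of_le_right (by linarith)
  calc (n : ℝ) * θ ^ 2 / 16 = (n * θ / 8) * (θ / 2) := by ring
    _ ≤ N * (θ / 2) := by gcongr
    _ = ∑ _k ∈ Finset.range N, θ / 2 := by simp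
    _ ≤ ∑ k ∈ Finset.range N, max 0 (θ - σ - (k : ℝ) / d) := Finset.sum_le_sum h2
    _ ≤ _ := Finset.sum_le_sum_of_subset_of_nonneg (Finset.range_mono hNn)
        fun _ _ _ => le_max_left _ _

/-- The Wronskian determinant attached to `P`. -/
theorem wr {m : ℕ} (d : Fin (m + 1) → ℕ) (P : MvPolynomial (Fin (m + 1)) ℤ) (hP : P ≠ 0)
    (hdeg : ∀ h, P.degreeOf h ≤ d h) :
    ∃ (n : ℕ) (V : MvPolynomial (Fin (m + 1)) ℤ) (W : MvPolynomial (Fin 1) ℚ)
      (U : MvPolynomial (Fin m) ℚ) (κ : Fin n → Fin 1 →₀ ℕ) (μ : Fin n → Fin m →₀ ℕ),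
      0 < n ∧ n ≤ d 0 + 1 ∧ W ≠ 0 ∧ U ≠ 0 ∧ map (Int.castRingHom ℚ) V = tn m W U ∧
      (∀ h, V.degreeOf h ≤ n * d h) ∧
      Real.log (l1 V) ≤ n * (Real.log (l1 P) + 3 * ∑ h, (d h : ℝ)) ∧
      Function.Injective (fun k => κ k 0) ∧ (∀ k, κ k 0 < n) ∧ (∀ i, (μ i).degree < n) ∧
      V = (Matrix.of fun i k =>
        hd ((κ k).mapDomain (i0 m)) (hd ((μ i).mapDomain Fin.succ) P)).det := by
  classical
  set PQ := map (Int.castRingHom ℚ) P with hPQ
  have hinj : Function.Injective (map (σ := Fin (m + 1)) (Int.castRingHom ℚ)) :=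
    map_injective _ (Int.cast_injective (α := ℚ))
  have hPQ0 : PQ ≠ 0 := (map_ne_zero_iff _ hinj).mpr hP
  have hd0 : PQ.degreeOf 0 ≤ d 0 := by
    rw [degreeOf_le_iff]
    intro J hJ
    exact (monomial_le_degreeOf 0 (support_map_subset _ _ hJ)).trans (hdeg 0)
  obtain ⟨n, hn, g, f, e, hg, hf⟩ := min_decomp (tn m) (d 0 + 1)
    (fun k => monomial (Finsupp.single 0 k) 1) (fun k => (finSuccEquiv ℚ m PQ).coeff k)
  rw [← decomp PQ (d 0) hd0] at e
  have hn0 : 0 < n := by
    rcases Nat.eq_zero_or_pos n with rfl | h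
    · exact absurd (by simpa using e) hPQ0
    · exact h
  obtain ⟨κ, hκ, hW⟩ := wronski MonomialOrder.lex g hg
  obtain ⟨μ, hμ, hU⟩ := wronski MonomialOrder.lex f hf
  set A : Matrix (Fin n) (Fin n) (MvPolynomial (Fin (m + 1)) ℤ) := Matrix.of fun i k =>
    hd ((κ k).mapDomain (i0 m)) (hd ((μ i).mapDomain Fin.succ) P) with hA
  have hVne : map (Int.castRingHom ℚ) A.det = tn m (Matrix.of fun i j => hd (κ i) (g j)).det
      (Matrix.of fun i j => hd (μ i) (f j)).det := by
    rw [RingHom.map_det, tn_apply, AlgHom.map_det, AlgHom.map_det, mul_comm,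
      ← Matrix.det_transpose ((rename (i0 m)).mapMatrix _), ← Matrix.det_mul]
    congr 1
    ext1 i k
    simp only [hA, RingHom.mapMatrix_apply, Matrix.map_apply, Matrix.of_apply, Matrix.mul_apply,
      AlgHom.mapMatrix_apply, Matrix.transpose_apply, map_hd]
    rw [← hPQ, e, hd_sum, hd_sum]
    refine Finset.sum_congr rfl fun j _ => ?_
    rw [hd_tn, tn_apply, mul_comm]
  have hκ0 : ∀ k, (κ k).degree = κ k 0 := by
    intro k
    rw [Finsupp.degree_eq_sum]
    simp
  refine ⟨n, A.det, _, _, κ, μ, hn0, hn, hW, hU, hVne, fun h => ?_, ?_, ?_,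
    fun k => hκ0 k ▸ hκ k, hμ, rfl⟩
  · exact degreeOf_det A h (d h) fun i k =>
      (degreeOf_hd _ _ _).trans ((degreeOf_hd _ _ _).trans (hdeg h))
  · set S := ∑ h, d h with hS
    have hl := one_le_l1 hP
    have hB : ∀ i k, l1 (A i k) ≤ 2 ^ S * (2 ^ S * l1 P) := by
      intro i k
      refine (l1_hd _ _ d fun h => (degreeOf_hd _ _ _).trans (hdeg h)).trans ?_
      exact mul_le_mul_of_nonneg_left (l1_hd _ _ d hdeg) (by positivity)
    have h1 := l1_det A _ (by positivity) hB
    have h2 : n.factorial ≤ (2 ^ S) ^ n := by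
      refine (Nat.factorial_le_pow n).trans (Nat.pow_le_pow_left ?_ n)
      have h3 : d 0 ≤ S := Finset.single_le_sum (f := d) (fun _ _ => Nat.zero_le _)
        (Finset.mem_univ 0)
      have h4 : d 0 < 2 ^ d 0 := Nat.lt_two_pow_self
      have h5 : 2 ^ d 0 ≤ 2 ^ S := Nat.pow_le_pow_right (by norm_num) h3
      omega
    have h3 : l1 A.det ≤ (2 ^ (3 * S) * l1 P) ^ n := by
      refine h1.trans ?_
      have h4 : (n.factorial : ℝ) ≤ (2 ^ S) ^ n := by exact_mod_cast h2
      calc (n.factorial : ℝ) * (2 ^ S * (2 ^ S * l1 P)) ^ n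
          ≤ (2 ^ S) ^ n * (2 ^ S * (2 ^ S * l1 P)) ^ n := by gcongr
        _ = _ := by rw [← mul_pow]; ring
    have hV0 : A.det ≠ 0 := by
      intro h0
      rw [h0, map_zero, tn_apply] at hVne
      rcases mul_eq_zero.mp hVne.symm with h | h
      · exact hW (rename_injective _ i0_inj (by rw [h, map_zero]))
      · exact hU (rename_injective _ (Fin.succ_injective m) (by rw [h, map_zero]))
    have h4 := Real.log_le_log (by linarith [one_le_l1 hV0]) h3
    rw [Real.log_pow, Real.log_mul (by positivity) (by positivity), Real.log_pow] at h4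
    refine h4.trans (mul_le_mul_of_nonneg_left ?_ (Nat.cast_nonneg _))
    have h5 : Real.log 2 ≤ 1 := by
      have := Real.log_le_sub_one_of_pos (show (0 : ℝ) < 2 by norm_num)
      linarith
    have h6 : (0 : ℝ) ≤ S := Nat.cast_nonneg _
    have h7 : (∑ h, (d h : ℝ)) = S := by rw [hS]; push_cast; rfl
    rw [h7]
    push_cast
    nlinarith
  · intro k k' h
    by_contra hne
    have : κ k = κ k' := by
      ext
      simpa using h
    exact hW (Matrix.det_zero_of_row_eq hne (by funext j; simp [this]))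

theorem roth : RothStmt := by
  classical
  intro m
  induction m with
  | zero =>
    intro θ hθ
    refine ⟨1, one_pos, fun d P ξ _ _ hP _ _ => ?_⟩
    have h1 : map (Int.castRingHom ℚ) P ≠ 0 :=
      (map_ne_zero_iff _ (map_injective _ (Int.cast_injective (α := ℚ)))).mpr hP
    obtain ⟨J, hJ⟩ := ne_zero_iff.mp (shift_ne_zero ξ h1)
    exact ⟨J, by simpa [wt_eq_sum] using hθ.le, hJ⟩
  | succ m ih =>
    intro θ hθ
    set θ0 := min θ 1 with hθ0
    have hθ0p : 0 < θ0 := lt_min hθ one_pos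
    have hθ01 : θ0 ≤ 1 := min_le_right _ _
    set θ' := θ0 ^ 2 / 64 with hθ'
    have hθ'p : 0 < θ' := by positivity
    obtain ⟨σ', hσ', IH⟩ := ih θ' hθ'p
    set σ := min (θ' / 4) (σ' / 4) with hσ
    have hσp : 0 < σ := lt_min (by positivity) (by positivity)
    have hσ1 : σ ≤ θ' / 4 := min_le_left _ _
    have hσ2 : σ ≤ σ' / 4 := min_le_right _ _
    refine ⟨σ, hσp, fun d P ξ hd0 hdd hP hdeg hht => ?_⟩
    by_contra hcon
    push Not at hcon
    set w : Fin (m + 1) → ℝ := fun h => 1 / (d h : ℝ) with hw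
    have hdR : ∀ h, (1 : ℝ) ≤ d h := fun h => by exact_mod_cast hd0 h
    have hw0 : ∀ h, 0 ≤ w h := fun h => by have := hdR h; positivity
    have hFil : Fil w θ0 (shift ξ (map (Int.castRingHom ℚ) P)) := by
      intro J hJ
      by_contra hlt
      exact mem_support_iff.mp hJ (hcon J ((not_le.mp hlt).le.trans (min_le_left _ _)))
    obtain ⟨n, V, W, U, κ, μ, hn0, hn, hW, hU, hV, hVdeg, hVl, hκi, hκ, hμ, hVdef⟩ :=
      wr d P hP hdeg
    have hnR : (1 : ℝ) ≤ n := by exact_mod_cast hn0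
    have hnd : (n : ℝ) ≤ d 0 + 1 := by exact_mod_cast hn
    -- lower bound for the weights
    have hlow : Fil w (∑ k, max 0 (θ0 - σ - κ k 0 / (d 0 : ℝ)))
        (shift ξ (map (Int.castRingHom ℚ) V)) := by
      rw [hVdef, RingHom.map_det, AlgHom.map_det]
      refine fil_det _ _ fun i k => ?_
      simp only [AlgHom.mapMatrix_apply, RingHom.mapMatrix_apply, Matrix.map_apply,
        Matrix.of_apply, map_hd, ← hd_shift]
      refine ((hFil.hd _).hd _).max hw0 ?_
      rw [wt_mapDomain, wt_mapDomain, wt_eq_sum, wt_eq_sum]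
      have h1 : ∑ t, ((μ i t : ℕ) : ℝ) * w t.succ ≤ σ := by
        have h2 : ∀ t : Fin m, w t.succ ≤ σ / d 0 := by
          intro t
          have := hdR 0
          have := hdR t.succ
          rw [hw, div_le_div_iff₀ (by linarith) (by linarith), one_mul]
          exact hdd 0 t.succ (Fin.succ_pos t)
        have h3 : ∑ t, ((μ i t : ℕ) : ℝ) ≤ d 0 := by
          have h4 := hμ i
          rw [Finsupp.degree_eq_sum] at h4
          have h5 : ∑ t, μ i t ≤ d 0 := by omega
          exact_mod_cast h5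
        have := hdR 0
        calc ∑ t, ((μ i t : ℕ) : ℝ) * w t.succ ≤ ∑ t, ((μ i t : ℕ) : ℝ) * (σ / d 0) :=
              Finset.sum_le_sum fun t _ => mul_le_mul_of_nonneg_left (h2 t) (Nat.cast_nonneg _)
          _ = (∑ t, ((μ i t : ℕ) : ℝ)) * (σ / d 0) := by rw [Finset.sum_mul]
          _ ≤ d 0 * (σ / d 0) := by gcongr
          _ = σ := by field_simp
      have h2 : ∑ s : Fin 1, ((κ k s : ℕ) : ℝ) * w (i0 m s) = κ k 0 / (d 0 : ℝ) := by
        simp [hw, i0, div_eq_mul_inv]
      rw [h2]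
      linarith
    have hsum := sum_bound n (d 0) θ0 σ hθ0p hθ01 (by nlinarith) (hdR 0) hnd _ hκi hκ
    -- the two slices
    obtain ⟨κ0, hκ0⟩ := ne_zero_iff.mp hW
    obtain ⟨ν0, hν0⟩ := ne_zero_iff.mp hU
    have hco : ∀ a b, ((V.coeff (jn a b) : ℤ) : ℚ) = coeff a W * coeff b U := by
      intro a b
      rw [← coeff_tn, ← hV, coeff_map]
      rfl
    obtain ⟨U', hU1, hU2, hU3⟩ := slice V (jn κ0) (fun _ _ h => (jn_inj h).2) U _ (hco κ0)
    obtain ⟨W', hW1, hW2, -⟩ := slice V (fun a => jn a ν0) (fun _ _ h => (jn_inj h).1) W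
      (coeff ν0 U) (fun a => by rw [hco, mul_comm])
    have hU'0 : U' ≠ 0 := by
      rintro rfl
      rw [map_zero] at hU1
      exact smul_ne_zero hκ0 hU hU1.symm
    have hW'0 : W' ≠ 0 := by
      rintro rfl
      rw [map_zero] at hW1
      exact smul_ne_zero hν0 hW hW1.symm
    set S := ∑ h, (d h : ℝ) with hS
    set L := Real.log (l1 P) with hL
    have hL0 : 0 ≤ L := Real.log_nonneg (one_le_l1 hP)
    have hS1 : S = d 0 + ∑ t : Fin m, (d t.succ : ℝ) := Fin.sum_univ_succ _
    have hS2 : 0 ≤ ∑ t : Fin m, (d t.succ : ℝ) := Finset.sum_nonneg fun _ _ => Nat.cast_nonneg _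
    have hlogden : ∀ h, 0 ≤ Real.log ((ξ h).den : ℝ) := fun h => Real.log_natCast_nonneg _
    obtain ⟨ν, hν1, hν2⟩ := IH (fun t => n * d t.succ) U' (fun t => ξ t.succ)
      (fun t => Nat.mul_pos hn0 (hd0 _))
      (fun t t' htt => by
        have h1 := hdd t.succ t'.succ (Fin.succ_lt_succ_iff.mpr htt)
        have h2 := hdR t'.succ
        push_cast
        calc (n : ℝ) * d t.succ ≤ n * (σ * d t'.succ) := by gcongr
          _ ≤ n * (σ' * d t'.succ) := by gcongr; linarith
          _ = _ := by ring)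
      hU'0
      (fun t => by
        rw [degreeOf_le_iff]
        intro a ha
        have h1 := monomial_le_degreeOf t.succ (hU3 a ha)
        rw [jn_succ] at h1
        exact h1.trans (hVdeg _))
      (fun t => by
        have h1 := Real.log_le_log (by linarith [one_le_l1 hU'0]) hU2
        have h2 := hht t.succ
        have h3 := hlogden t.succ
        have h4 := hdR t.succ
        have h5 := hdR 0
        push_cast
        rw [← Finset.mul_sum]
        calc Real.log (l1 U') + n * ∑ t : Fin m, (d t.succ : ℝ)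
            ≤ n * (L + 3 * S) + n * S := by
              refine add_le_add (h1.trans hVl) ?_
              gcongr
              linarith
          _ ≤ n * (4 * (L + S)) := by nlinarith
          _ ≤ n * (4 * (σ * d t.succ * Real.log ((ξ t.succ).den : ℝ))) := by gcongr
          _ = n * ((4 * σ) * (d t.succ * Real.log ((ξ t.succ).den : ℝ))) := by ring
          _ ≤ n * (σ' * (d t.succ * Real.log ((ξ t.succ).den : ℝ))) := by
              gcongr
              linarith
          _ = _ := by ring)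
    obtain ⟨κ1, hκ1, hκ2⟩ := one_var W' hW'0 (fun _ => ξ 0)
    rw [hU1, map_smul, coeff_smul] at hν2
    rw [hW1, map_smul, coeff_smul] at hκ2
    have hmem : jn κ1 ν ∈ (shift ξ (map (Int.castRingHom ℚ) V)).support := by
      rw [mem_support_iff, hV, shift_tn, coeff_tn]
      exact mul_ne_zero (right_ne_zero_of_smul hκ2) (right_ne_zero_of_smul hν2)
    have hfin := hsum.trans (hlow _ hmem)
    unfold jn at hfin
    rw [wt_add, wt_mapDomain, wt_mapDomain, wt_eq_sum, wt_eq_sum] at hfin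
    have hA : ∑ t, ((ν t : ℕ) : ℝ) * w t.succ ≤ n * θ' := by
      rw [wt_eq_sum] at hν1
      have e : ∑ t, ((ν t : ℕ) : ℝ) * w t.succ =
          n * ∑ t, ((ν t : ℕ) : ℝ) * (1 / ((n * d t.succ : ℕ) : ℝ)) := by
        rw [Finset.mul_sum]
        refine Finset.sum_congr rfl fun t _ => ?_
        have := hdR t.succ
        simp only [hw]
        push_cast
        field_simp
      rw [e]
      gcongr
    have hB : ∑ s : Fin 1, ((κ1 s : ℕ) : ℝ) * w (i0 m s) ≤ n * θ' := by
      have e : ∑ s : Fin 1, ((κ1 s : ℕ) : ℝ) * w (i0 m s) = κ1 0 / (d 0 : ℝ) := by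
        simp [hw, i0, div_eq_mul_inv]
      have h0 := hdR 0
      rw [e, div_le_iff₀ (by linarith)]
      have h1 := hht 0
      have h2 : 0 < Real.log ((ξ 0).den : ℝ) := by
        rcases (hlogden 0).lt_or_eq with h | h
        · exact h
        · rw [← h] at h1
          linarith
      have h3 : (0 : ℝ) < ((ξ 0).den : ℝ) := by exact_mod_cast (ξ 0).den_pos
      have h4 := Real.log_le_log (by positivity) (hκ1.trans hW2)
      rw [Real.log_pow] at h4
      refine le_of_mul_le_mul_right ?_ h2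
      calc (κ1 0 : ℝ) * Real.log ((ξ 0).den : ℝ) ≤ n * (L + 3 * S) := h4.trans hVl
        _ ≤ n * (4 * (L + S)) := by gcongr; linarith
        _ ≤ n * (4 * (σ * d 0 * Real.log ((ξ 0).den : ℝ))) := by gcongr
        _ = n * ((4 * σ) * (d 0 * Real.log ((ξ 0).den : ℝ))) := by ring
        _ ≤ n * (θ' * (d 0 * Real.log ((ξ 0).den : ℝ))) := by
            gcongr
            linarith
        _ = _ := by ring
    have : 0 < (n : ℝ) * θ0 ^ 2 := by positivity
    rw [hθ'] at hA hB
    linarith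

end Pool.Agent.MP_077ac3_nt.H15
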